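import Pool.Agent.Y775.W3.Stm

/-!
# W3-INT: the residue data of a prime number
-/

set_option autoImplicit false

namespace Pool.Agent.Y328.W3.INT

variable {p : ℕ}

theorem quot_small {y z : ℤ} (h : z = p * y) (hz : |z| < (p : ℤ) ^ 2) :
    y = 0 ∨ (y ≠ 0 ∧ y.natAbs < p) := by
  by_cases hy : y = 0
  · exact Or.inl hy
  · right
    refine ⟨hy, ?_⟩
    by_contra hc
    push Not at hc
    have h1 : (p : ℤ) ≤ |y| := by
      rw [Int.abs_eq_natAbs]
      exact_mod_cast hc
    have h2 : |z| = p * |y| := by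
      rw [h, abs_mul, abs_of_nonneg (Int.natCast_nonneg p)]
    have h0 : (0 : ℤ) ≤ p := Int.natCast_nonneg p
    nlinarith

theorem dvd_of {z : ℤ} (h : (z : ZMod p) = 0) : ∃ y : ℤ, z = p * y :=
  (ZMod.intCast_zmod_eq_zero_iff_dvd z p).1 h

variable [hp : Fact p.Prime]

theorem rep_le (x : ZMod p) : 2 * |x.valMinAbs| ≤ p := by
  have h := ZMod.valMinAbs_mem_Ioc x
  rw [Set.mem_Ioc] at h
  rcases abs_cases x.valMinAbs with h1 | h1 <;> omega

theorem S_ne {a : ℤ} (h0 : a ≠ 0) (ha : a.natAbs < p) : (a : ZMod p) ≠ 0 := by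
  intro h
  obtain ⟨y, hy⟩ := dvd_of h
  have h1 : y ≠ 0 := by
    rintro rfl
    simp at hy
    exact h0 hy
  have h2 : 1 ≤ |y| := Int.one_le_abs h1
  have h3 : |a| = p * |y| := by
    rw [hy, abs_mul, abs_of_nonneg (Int.natCast_nonneg p)]
  have h4 : |a| < p := by
    rw [Int.abs_eq_natAbs]
    exact_mod_cast ha
  have h5 : (0 : ℤ) ≤ p := Int.natCast_nonneg p
  nlinarith

theorem abs_lt_of {a : ℤ} (ha : a.natAbs < p) : |a| ≤ (p : ℤ) - 1 := by
  rw [Int.abs_eq_natAbs]
  omega

theorem rep1 : (1 : ZMod p).valMinAbs = 1 := by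
  rw [ZMod.valMinAbs_spec]
  refine ⟨by simp, ?_⟩
  have h := hp.out.two_le
  rw [Set.mem_Ioc]
  constructor <;> omega

theorem euclid_aux (x : ZMod p) (hx : x ≠ 0) (c : ℤ) (hc : c ≠ 0 ∧ c.natAbs < p)
    (h : ¬ (x.valMinAbs * c).natAbs < p) :
    ∃ y ∈ {a : ℤ | a ≠ 0 ∧ a.natAbs < p}, y.natAbs < c.natAbs ∧ (x.valMinAbs * y).natAbs < p ∧
      (x * (Int.castRingHom (ZMod p) y)).valMinAbs.natAbs < x.valMinAbs.natAbs := by
  have hp2 := hp.out.two_le
  set r := x.valMinAbs with hr
  have hr0 : r ≠ 0 := by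
    intro h0
    apply hx
    have := ZMod.coe_valMinAbs x
    rw [← hr, h0] at this
    simpa using this.symm
  obtain ⟨s, hs⟩ : ∃ s : ℕ, s = r.natAbs := ⟨_, rfl⟩
  have hs0 : 0 < s := by omega
  have hle := rep_le x
  have hle2 : 2 * s ≤ p := by
    rw [← hr, Int.abs_eq_natAbs, ← hs] at hle
    exact_mod_cast hle
  rw [Int.natAbs_mul, ← hs] at h
  push Not at h
  have hs1 : s ≠ 1 := by
    rintro h1
    rw [h1] at h
    omega
  have hdm := Nat.div_add_mod p s
  have hml := Nat.mod_lt p hs0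
  have hm0 : p % s ≠ 0 := by
    intro h0
    have h1 : s ∣ p := Nat.dvd_of_mod_eq_zero h0
    rcases (Nat.dvd_prime hp.out).1 h1 with h2 | h2 <;> omega
  have hq1 : 1 ≤ p / s := (Nat.one_le_div_iff hs0).2 (by omega)
  have hsy : s * (p / s) < p := by omega
  have hyc : p / s < c.natAbs := by
    by_contra hcon
    push Not at hcon
    have := Nat.mul_le_mul_left s hcon
    omega
  refine ⟨((p / s : ℕ) : ℤ), ⟨by omega, ?_⟩, ?_, ?_, ?_⟩
  · rw [Int.natAbs_natCast]
    exact (Nat.div_lt_self (by omega) (by omega))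
  · rw [Int.natAbs_natCast]
    exact hyc
  · rw [Int.natAbs_mul, ← hs, Int.natAbs_natCast]
    exact hsy
  · -- the representative is `± (p % s)`
    have hx' : x = ((r : ℤ) : ZMod p) := (ZMod.coe_valMinAbs x).symm
    have hcast : ((p : ℤ) : ZMod p) = 0 := by simp
    have hpi : (p : ℤ) = s * ((p / s : ℕ) : ℤ) + ((p % s : ℕ) : ℤ) := by exact_mod_cast hdm.symm
    rcases Int.natAbs_eq r with h1 | h1
    · have h2 : (x * (Int.castRingHom (ZMod p) ((p / s : ℕ) : ℤ))).valMinAbs =
          -((p % s : ℕ) : ℤ) := by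
        rw [ZMod.valMinAbs_spec]
        constructor
        · rw [hx', h1, ← hs]
          simp only [eq_intCast]
          rw [← Int.cast_mul, ← sub_eq_zero, ← Int.cast_sub]
          have : (s : ℤ) * ((p / s : ℕ) : ℤ) - -((p % s : ℕ) : ℤ) = p := by linarith
          rw [this]
          simp
        · rw [Set.mem_Ioc]
          constructor <;> omega
      rw [h2, Int.natAbs_neg, Int.natAbs_natCast]
      omega
    · have h2 : (x * (Int.castRingHom (ZMod p) ((p / s : ℕ) : ℤ))).valMinAbs =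
          ((p % s : ℕ) : ℤ) := by
        rw [ZMod.valMinAbs_spec]
        constructor
        · rw [hx', h1, ← hs]
          simp only [eq_intCast]
          rw [← Int.cast_mul, ← sub_eq_zero, ← Int.cast_sub]
          have : -(s : ℤ) * ((p / s : ℕ) : ℤ) - ((p % s : ℕ) : ℤ) = -p := by linarith
          rw [this]
          simp
        · rw [Set.mem_Ioc]
          constructor <;> omega
      rw [h2, Int.natAbs_natCast]
      omega

/-- the residue data -/
noncomputable def D (p : ℕ) [hp : Fact p.Prime] : Y775.W3.RD ℤ (ZMod p) where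
  p := p
  ρ := Int.castRingHom (ZMod p)
  rep x := x.valMinAbs
  hp a := by
    rw [eq_intCast]
    exact ZMod.intCast_zmod_eq_zero_iff_dvd a p
  hrep x := by
    rw [eq_intCast]
    exact ZMod.coe_valMinAbs x
  rep0 := ZMod.valMinAbs_zero p
  rep1 := rep1
  S := {a | a ≠ 0 ∧ a.natAbs < p}
  hSρ a ha := by
    rw [eq_intCast]
    exact S_ne ha.1 ha.2
  s2 x y hxy := by
    refine ⟨fun h => hxy (ZMod.injective_valMinAbs (sub_eq_zero.1 h)), ?_⟩
    have h1 := ZMod.valMinAbs_mem_Ioc x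
    have h2 := ZMod.valMinAbs_mem_Ioc y
    rw [Set.mem_Ioc] at h1 h2
    omega
  s3 b hb c hc x hx := by
    simp only [eq_intCast] at hx
    have h1 : ((x.valMinAbs * c - b : ℤ) : ZMod p) = 0 := by
      rw [Int.cast_sub, Int.cast_mul, ZMod.coe_valMinAbs, hx, sub_self]
    obtain ⟨y, hy⟩ := dvd_of h1
    refine ⟨y, hy, quot_small hy ?_⟩
    have h2 := rep_le x
    have h3 := abs_lt_of hb.2
    have h4 := abs_lt_of hc.2
    have h5 : |x.valMinAbs * c - b| ≤ |x.valMinAbs| * |c| + |b| := by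
      rw [← abs_mul]
      exact abs_sub _ _
    have h6 := hp.out.two_le
    have h7 : (2 : ℤ) ≤ p := by exact_mod_cast h6
    have h8 := abs_nonneg x.valMinAbs
    have h9 := abs_nonneg c
    have h10 : 2 * (|x.valMinAbs| * |c|) ≤ p * ((p : ℤ) - 1) := by nlinarith
    nlinarith
  s4 x w hx0 hx1 hw0 hw1 hxw := by
    have hwx : w - x ≠ 0 := sub_ne_zero.2 (Ne.symm hxw)
    have h1 : ((x.valMinAbs * (w.valMinAbs - 1) - (w.valMinAbs - x.valMinAbs) *
        (x * (w - 1) / (w - x)).valMinAbs : ℤ) : ZMod p) = 0 := by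
      push_cast
      rw [mul_div_cancel₀ _ hwx, sub_self]
    obtain ⟨y, hy⟩ := dvd_of h1
    refine ⟨y, hy, quot_small hy ?_⟩
    have g1 := ZMod.valMinAbs_mem_Ioc x
    have g2 := ZMod.valMinAbs_mem_Ioc w
    rw [Set.mem_Ioc] at g1 g2
    have k1 := rep_le x
    have k2 := rep_le (x * (w - 1) / (w - x))
    have h6 : (2 : ℤ) ≤ p := by exact_mod_cast hp.out.two_le
    have k3 : 2 * |w.valMinAbs - 1| ≤ (p : ℤ) + 2 := by
      rcases abs_cases (w.valMinAbs - 1) with h1 | h1 <;> omega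
    have k4 : |w.valMinAbs - x.valMinAbs| ≤ (p : ℤ) - 1 := by
      rcases abs_cases (w.valMinAbs - x.valMinAbs) with h1 | h1 <;> omega
    have k5 : |x.valMinAbs * (w.valMinAbs - 1) - (w.valMinAbs - x.valMinAbs) *
        (x * (w - 1) / (w - x)).valMinAbs| ≤ |x.valMinAbs| * |w.valMinAbs - 1| +
        |w.valMinAbs - x.valMinAbs| * |(x * (w - 1) / (w - x)).valMinAbs| := by
      rw [← abs_mul, ← abs_mul]
      exact abs_sub _ _
    have n1 := abs_nonneg x.valMinAbs
    have n2 := abs_nonneg (w.valMinAbs - 1)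
    have n3 := abs_nonneg (w.valMinAbs - x.valMinAbs)
    have n4 := abs_nonneg (x * (w - 1) / (w - x)).valMinAbs
    have k6 : 4 * (|x.valMinAbs| * |w.valMinAbs - 1|) ≤ p * ((p : ℤ) + 2) := by
      have := mul_le_mul k1 k3 (by positivity) (by positivity)
      linarith
    have k7 : 4 * (|w.valMinAbs - x.valMinAbs| * |(x * (w - 1) / (w - x)).valMinAbs|) ≤
        2 * (((p : ℤ) - 1) * p) := by
      have := mul_le_mul k4 k2 (by positivity) (by linarith)
      linarith
    nlinarith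
  Adm a b := (a * b).natAbs < p
  μ := Int.natAbs
  adm1 := by
    have := hp.out.two_le
    show (1 * 1 : ℤ).natAbs < p
    simp
    omega
  euclid x hx c hc h := euclid_aux x hx c hc h
  Box := {A | 2 * |A| < (p : ℤ) ^ 2}
  b1 b hb c hc hbc x hx := by
    have h6 : (2 : ℤ) ≤ p := by exact_mod_cast hp.out.two_le
    have h1 := abs_lt_of hbc
    have h2 := rep_le x
    have h3 := rep_le (Int.castRingHom (ZMod p) b * Int.castRingHom (ZMod p) c)
    have n1 := abs_nonneg x.valMinAbs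
    have n2 := abs_nonneg (b * c)
    have n3 := abs_nonneg (Int.castRingHom (ZMod p) b * Int.castRingHom (ZMod p) c).valMinAbs
    constructor
    · show 2 * |b * c * x.valMinAbs| < (p : ℤ) ^ 2
      rw [abs_mul]
      have := mul_le_mul h1 h2 (by positivity) (by linarith)
      nlinarith
    · show 2 * |(Int.castRingHom (ZMod p) b * Int.castRingHom (ZMod p) c).valMinAbs *
        x.valMinAbs| < (p : ℤ) ^ 2
      rw [abs_mul]
      have := mul_le_mul h3 h2 (by positivity) (by linarith)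
      nlinarith
  b2 A1 hA1 A2 hA2 h := by
    simp only [eq_intCast] at h
    have h1 : ((A1 - A2 : ℤ) : ZMod p) = 0 := by
      rw [Int.cast_sub, h, sub_self]
    obtain ⟨y, hy⟩ := dvd_of h1
    have hA1' : 2 * |A1| < (p : ℤ) ^ 2 := hA1
    have hA2' : 2 * |A2| < (p : ℤ) ^ 2 := hA2
    rcases quot_small hy (by
      have := abs_sub A1 A2
      linarith) with h2 | h2
    · left
      rw [h2, mul_zero] at hy
      exact sub_eq_zero.1 hy
    · right
      exact ⟨y, h2, hy⟩

theorem main : Y775.W3.StmINT := by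
  intro p _
  exact ⟨D p, rfl, rfl, rfl, fun _ _ => Iff.rfl, fun _ => rfl⟩

end Pool.Agent.Y328.W3.INT
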